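import Mathlib

set_option autoImplicit false

open Filter Topology Set
open scoped ENNReal NNReal

namespace Pool.Agent.R221.Om

/-- The Euclidean plane. -/
abbrev Plane : Type := EuclideanSpace ℝ (Fin 2)

/-- `N_r(E)`: the largest number of pairwise disjoint closed balls `B(x_i, r)` with centres in
`E`. -/
noncomputable def packNum (r : ℝ) (E : Set Plane) : ℕ∞ :=
  ⨆ (T : Finset Plane) (_ : (T : Set Plane) ⊆ E ∧
    (T : Set Plane).PairwiseDisjoint fun x => Metric.closedBall x r), (T.card : ℕ∞)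

/-- The Assouad dimension. -/
noncomputable def dimA (F : Set Plane) : ℝ≥0∞ :=
  ⨅ (β : ℝ≥0) (_ : ∃ C : ℝ, 0 < C ∧ ∀ r R : ℝ, 0 < r → r < R → ∀ x ∈ F,
    ((packNum r (Metric.ball x R ∩ F) : ℕ∞) : ℝ≥0∞) ≤ ENNReal.ofReal (C * (R / r) ^ (β : ℝ))),
    (β : ℝ≥0∞)

lemma dimA_le {F : Set Plane} {β : ℝ≥0} {C : ℝ} (hC : 0 < C)
    (h : ∀ r R : ℝ, 0 < r → r < R → ∀ x ∈ F, ∀ T : Finset Plane,
      (T : Set Plane) ⊆ Metric.ball x R ∩ F →
      (∀ p ∈ T, ∀ q ∈ T, p ≠ q → 2 * r < dist p q) → (T.card : ℝ) ≤ C * (R / r) ^ (β : ℝ)) :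
    dimA F ≤ β := by
  refine iInf₂_le _ ⟨C, hC, fun r R hr hR x hx => ?_⟩
  set B : ℕ := ⌊C * (R / r) ^ (β : ℝ)⌋₊ with hB
  have hR0 : 0 < R := hr.trans hR
  have hnn : 0 ≤ C * (R / r) ^ (β : ℝ) := by positivity
  have h1 : packNum r (Metric.ball x R ∩ F) ≤ (B : ℕ∞) := by
    refine iSup₂_le fun T hT => ?_
    have h2 := h r R hr hR x hx T hT.1 (fun p hp q hq hpq => by
      by_contra hle
      rw [not_lt] at hle
      have hd : Disjoint (Metric.closedBall p r) (Metric.closedBall q r) := hT.2 hp hq hpq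
      have m1 : midpoint ℝ p q ∈ Metric.closedBall p r := by
        rw [Metric.mem_closedBall, dist_midpoint_left]
        simp only [Real.norm_ofNat]
        linarith
      have m2 : midpoint ℝ p q ∈ Metric.closedBall q r := by
        rw [Metric.mem_closedBall, dist_midpoint_right]
        simp only [Real.norm_ofNat]
        linarith
      exact Set.disjoint_left.1 hd m1 m2)
    have h3 : T.card ≤ B := Nat.le_floor h2
    exact_mod_cast h3
  have h2 : ((packNum r (Metric.ball x R ∩ F) : ℕ∞) : ℝ≥0∞) ≤ ((B : ℕ∞) : ℝ≥0∞) :=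
    ENat.toENNReal_le.2 h1
  refine h2.trans ?_
  rw [ENat.toENNReal_coe, ← ENNReal.ofReal_natCast]
  exact ENNReal.ofReal_le_ofReal (Nat.floor_le hnn)

lemma plane_dist_le (x y : Plane) : dist x y ≤ |x 0 - y 0| + |x 1 - y 1| := by
  rw [EuclideanSpace.dist_eq, Fin.sum_univ_two, Real.dist_eq, Real.dist_eq]
  rw [← Real.sqrt_sq (by positivity : 0 ≤ |x 0 - y 0| + |x 1 - y 1|)]
  apply Real.sqrt_le_sqrt
  nlinarith [abs_nonneg (x 0 - y 0), abs_nonneg (x 1 - y 1)]

lemma plane_coord_le (x y : Plane) (i : Fin 2) : |x i - y i| ≤ dist x y := by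
  have := EuclideanSpace.dist_eq x y
  rw [this, Fin.sum_univ_two, Real.dist_eq, Real.dist_eq]
  apply Real.le_sqrt_of_sq_le
  fin_cases i
  · simp; positivity
  · simp; positivity

/-- counting in a grid -/
lemma grid {T : Finset Plane} {a ρ r H : ℝ} (hr : 0 < r) (hρ : 0 ≤ ρ) (hH : 0 ≤ H) (b : ℕ → ℝ)
    (h0 : ∀ p ∈ T, a ≤ p 0 ∧ p 0 ≤ a + ρ)
    (h1 : ∀ p ∈ T, b ⌊(p 0 - a) / r⌋₊ ≤ p 1 ∧ p 1 ≤ b ⌊(p 0 - a) / r⌋₊ + H)
    (hsep : ∀ p ∈ T, ∀ q ∈ T, p ≠ q → 2 * r < dist p q) :
    (T.card : ℝ) ≤ (ρ / r + 1) * (H / r + 1) := by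
  classical
  set F : Plane → ℕ × ℕ := fun p =>
    (⌊(p 0 - a) / r⌋₊, ⌊(p 1 - b ⌊(p 0 - a) / r⌋₊) / r⌋₊) with hF
  have hmaps : ∀ p ∈ T, F p ∈ Finset.range (⌊ρ / r⌋₊ + 1) ×ˢ Finset.range (⌊H / r⌋₊ + 1) := by
    intro p hp
    rw [Finset.mem_product, Finset.mem_range, Finset.mem_range]
    constructor
    · refine Nat.lt_succ_of_le (Nat.floor_le_floor ?_)
      gcongr
      linarith [(h0 p hp).2]
    · refine Nat.lt_succ_of_le (Nat.floor_le_floor ?_)
      gcongr
      linarith [(h1 p hp).2]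
  have hclose : ∀ x y : ℝ, 0 ≤ x → 0 ≤ y → ⌊x / r⌋₊ = ⌊y / r⌋₊ → |x - y| < r := by
    intro x y hx hy hxy
    have e1 := Nat.floor_le (show 0 ≤ x / r by positivity)
    have e2 := Nat.lt_floor_add_one (x / r)
    have e3 := Nat.floor_le (show 0 ≤ y / r by positivity)
    have e4 := Nat.lt_floor_add_one (y / r)
    rw [hxy] at e1 e2
    have e5 : |x / r - y / r| < 1 := by rw [abs_lt]; constructor <;> linarith
    rw [← sub_div, abs_div, abs_of_pos hr, div_lt_one hr] at e5
    exact e5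
  have hinj : Set.InjOn F T := by
    intro p hp q hq hpq
    by_contra hne
    have hs := hsep p hp q hq hne
    simp only [hF, Prod.mk.injEq] at hpq
    obtain ⟨e1, e2⟩ := hpq
    have e3 := hclose _ _ (sub_nonneg.2 (h0 p hp).1) (sub_nonneg.2 (h0 q hq).1) e1
    rw [← e1] at e2
    have e4 := hclose _ _ (sub_nonneg.2 (h1 p hp).1) (by
      have := (h1 q hq).1
      rw [← e1] at this
      exact sub_nonneg.2 this) e2
    have e5 := plane_dist_le p q
    have e6 : p 0 - a - (q 0 - a) = p 0 - q 0 := by ring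
    have e7 : p 1 - b ⌊(p 0 - a) / r⌋₊ - (q 1 - b ⌊(p 0 - a) / r⌋₊) = p 1 - q 1 := by ring
    rw [e6] at e3
    rw [e7] at e4
    linarith
  have hcard := Finset.card_le_card_of_injOn F hmaps hinj
  rw [Finset.card_product, Finset.card_range, Finset.card_range] at hcard
  have h2 : (T.card : ℝ) ≤ ((⌊ρ / r⌋₊ + 1 : ℕ) : ℝ) * ((⌊H / r⌋₊ + 1 : ℕ) : ℝ) := by
    exact_mod_cast hcard
  refine h2.trans ?_
  push_cast
  have h3 := Nat.floor_le (show 0 ≤ ρ / r by positivity)
  have h4 := Nat.floor_le (show 0 ≤ H / r by positivity)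
  gcongr

/-- the part of `T` above `[a, a + ρ]` -/
noncomputable def part (T : Finset Plane) (a ρ : ℝ) : Finset Plane :=
  open scoped Classical in T.filter fun p => a ≤ p 0 ∧ p 0 ≤ a + ρ

lemma mem_part {T : Finset Plane} {a ρ : ℝ} {p : Plane} :
    p ∈ part T a ρ ↔ p ∈ T ∧ a ≤ p 0 ∧ p 0 ≤ a + ρ := by
  simp [part]

/-- subdivision into `M` parts one of which is empty -/
lemma subdivide {T : Finset Plane} {a ρ B : ℝ} {M : ℕ} (hM : 0 < M) (hρ : 0 < ρ)
    (hB : ∀ i < M, ((part T (a + i * (ρ / M)) (ρ / M)).card : ℝ) ≤ B)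
    (hempty : ∃ i < M, part T (a + i * (ρ / M)) (ρ / M) = ∅) :
    ((part T a ρ).card : ℝ) ≤ (M - 1) * B := by
  classical
  have hM0 : (0 : ℝ) < M := by exact_mod_cast hM
  obtain ⟨i0, hi0, he⟩ := hempty
  have hsub : part T a ρ ⊆ ((Finset.range M).erase i0).biUnion
      fun i => part T (a + i * (ρ / M)) (ρ / M) := by
    intro p hp
    rw [mem_part] at hp
    -- the index
    have hex : ∃ i < M, p ∈ part T (a + i * (ρ / M)) (ρ / M) := by
      have hd : 0 < ρ / M := by positivity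
      rcases lt_or_ge ⌊(p 0 - a) / (ρ / M)⌋₊ M with h | h
      · refine ⟨_, h, ?_⟩
        rw [mem_part]
        have e1 := Nat.floor_le (show 0 ≤ (p 0 - a) / (ρ / M) from
          div_nonneg (sub_nonneg.2 hp.2.1) hd.le)
        have e2 := Nat.lt_floor_add_one ((p 0 - a) / (ρ / M))
        rw [le_div_iff₀ hd] at e1
        rw [div_lt_iff₀ hd] at e2
        refine ⟨hp.1, by linarith, by linarith⟩
      · refine ⟨M - 1, by omega, ?_⟩
        rw [mem_part]
        have e1 := (Nat.le_floor_iff (div_nonneg (sub_nonneg.2 hp.2.1) hd.le)).1 h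
        rw [le_div_iff₀ hd] at e1
        have e2 : (M : ℝ) * (ρ / M) = ρ := by field_simp
        have e3 : ((M - 1 : ℕ) : ℝ) = M - 1 := by
          rw [Nat.cast_sub (by omega)]; simp
        rw [e2] at e1
        rw [e3]
        have e4 : ((M : ℝ) - 1) * (ρ / M) = ρ - ρ / M := by rw [sub_mul, e2]; ring
        rw [e4]
        refine ⟨hp.1, by linarith, by linarith [hp.2.2]⟩
    obtain ⟨i, hi, hpi⟩ := hex
    rw [Finset.mem_biUnion]
    refine ⟨i, ?_, hpi⟩
    rw [Finset.mem_erase, Finset.mem_range]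
    refine ⟨?_, hi⟩
    rintro rfl
    rw [he] at hpi
    simp at hpi
  have h1 := (Finset.card_le_card hsub).trans Finset.card_biUnion_le
  have h2 : ((part T a ρ).card : ℝ) ≤ ∑ i ∈ (Finset.range M).erase i0,
      ((part T (a + i * (ρ / M)) (ρ / M)).card : ℝ) := by exact_mod_cast h1
  refine h2.trans ?_
  have h3 : ∑ i ∈ (Finset.range M).erase i0, ((part T (a + i * (ρ / M)) (ρ / M)).card : ℝ) ≤
      ∑ i ∈ (Finset.range M).erase i0, B :=
    Finset.sum_le_sum fun i hi => hB i (Finset.mem_range.1 (Finset.mem_of_mem_erase hi))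
  refine h3.trans (le_of_eq ?_)
  rw [Finset.sum_const, Finset.card_erase_of_mem (Finset.mem_range.2 hi0), Finset.card_range,
    nsmul_eq_mul, Nat.cast_sub (by omega), Nat.cast_one]

section main

variable {G : ℝ → ℝ} {K c : ℝ} {M : ℕ} {s : ℝ}

/-- the assumptions on the function -/
structure Rough (G : ℝ → ℝ) (K c : ℝ) : Prop where
  K_ge : 1 ≤ K
  c_pos : 0 < c
  holder : ∀ x ∈ Icc (0 : ℝ) 1, ∀ y ∈ Icc (0 : ℝ) 1, |G x - G y| ≤ K * Real.sqrt |x - y|
  osc : ∀ a b : ℝ, 0 ≤ a → a < b → b ≤ 1 →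
    ∃ x ∈ Icc a b, ∃ y ∈ Icc a b, c * Real.sqrt (b - a) ≤ |G x - G y|

/-- the constant -/
noncomputable def C1 (K c : ℝ) (M : ℕ) : ℝ := 6 * M + 16 * (2 * K + 1) / c

variable (hG : Rough G K c) (hM2 : 2 ≤ M) (hMK : (4 * K / c) ^ 2 ≤ M) (hs : 1 / 2 ≤ s)
  (hs1 : s < 1) (hMs : (M : ℝ) - 1 ≤ (M : ℝ) ^ s)
  {T : Finset Plane} {r R y0 : ℝ} (hr : 0 < r) (hrR : r < R)
  (hT0 : ∀ p ∈ T, p 0 ∈ Icc (0 : ℝ) 1 ∧ p 1 = G (p 0) ∧ |p 1 - y0| ≤ R)
  (hsep : ∀ p ∈ T, ∀ q ∈ T, p ≠ q → 2 * r < dist p q)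

include hr hrR hT0 hsep in
lemma direct1 {a ρ : ℝ} (hρ : 0 ≤ ρ) :
    ((part T a ρ).card : ℝ) ≤ (ρ / r + 1) * (2 * R / r + 1) := by
  have hR : 0 < R := hr.trans hrR
  refine grid hr hρ (by positivity) (fun _ => y0 - R) (fun p hp => (mem_part.1 hp).2)
    (fun p hp => ?_) (fun p hp q hq => hsep p (mem_part.1 hp).1 q (mem_part.1 hq).1)
  have := abs_le.1 (hT0 p (mem_part.1 hp).1).2.2
  constructor <;> linarith [this.1, this.2]

include hG hr hT0 hsep in
lemma direct2 {a ρ : ℝ} (hρ : 0 ≤ ρ) (ha : 0 ≤ a) (haρ : a + ρ ≤ 1) :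
    ((part T a ρ).card : ℝ) ≤ (ρ / r + 1) * (2 * (K * Real.sqrt r) / r + 1) := by
  have hK : 0 < K := lt_of_lt_of_le one_pos hG.K_ge
  refine grid hr hρ (by positivity) (fun i => G (a + i * r) - K * Real.sqrt r)
    (fun p hp => (mem_part.1 hp).2) (fun p hp => ?_)
    (fun p hp q hq => hsep p (mem_part.1 hp).1 q (mem_part.1 hq).1)
  obtain ⟨hp0, hp1, hp2⟩ := mem_part.1 hp
  have e1 := Nat.floor_le (show 0 ≤ (p 0 - a) / r from div_nonneg (sub_nonneg.2 hp1) hr.le)
  have e2 := Nat.lt_floor_add_one ((p 0 - a) / r)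
  rw [le_div_iff₀ hr] at e1
  rw [div_lt_iff₀ hr] at e2
  set i := ⌊(p 0 - a) / r⌋₊ with hi
  have hir : 0 ≤ (i : ℝ) * r := by positivity
  have e3 := hG.holder (p 0) (hT0 p hp0).1 (a + i * r) ⟨by linarith, by linarith⟩
  have e4 : Real.sqrt |p 0 - (a + i * r)| ≤ Real.sqrt r := by
    apply Real.sqrt_le_sqrt
    rw [abs_le]; constructor <;> linarith
  have e5 : |G (p 0) - G (a + i * r)| ≤ K * Real.sqrt r :=
    e3.trans (mul_le_mul_of_nonneg_left e4 hK.le)
  rw [(hT0 p hp0).2.1]
  have e6 := abs_le.1 e5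
  constructor <;> linarith [e6.1, e6.2]

include hG hM2 hMK hs hs1 hMs hr hrR hT0 hsep in
lemma scales (N : ℕ) : ∀ ρ : ℝ, r ≤ ρ → ρ ≤ 1 → ρ < (M : ℝ) ^ N * r → ∀ a : ℝ, 0 ≤ a → a + ρ ≤ 1 →
    ((part T a ρ).card : ℝ) ≤ C1 K c M * (ρ / r) ^ s * (R / r) := by
  have hR : 0 < R := hr.trans hrR
  have hc := hG.c_pos
  have hK : 0 < K := lt_of_lt_of_le one_pos hG.K_ge
  have hM0 : (0 : ℝ) < M := by exact_mod_cast (by omega : 0 < M)
  have hM1 : (1 : ℝ) ≤ M := by exact_mod_cast (by omega : 1 ≤ M)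
  induction N with
  | zero => intro ρ h1 _ h2; simp at h2; linarith
  | succ N ih =>
    intro ρ hρr hρ1 hρN a ha haρ
    have hρ0 : 0 < ρ := lt_of_lt_of_le hr hρr
    have hq1 : 1 ≤ ρ / r := (one_le_div hr).2 hρr
    have hRr : 1 ≤ R / r := (one_le_div hr).2 hrR.le
    by_cases hA : ρ < M * r
    · -- small scale
      have h1 := direct1 (a := a) hr hrR hT0 hsep hρ0.le
      have h2 : ρ / r ≤ M := by rw [div_le_iff₀ hr]; exact hA.le
      have h3 : 1 ≤ (ρ / r) ^ s := Real.one_le_rpow hq1 (by linarith)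
      have h4 : ρ / r ≤ M * (ρ / r) ^ s := by nlinarith
      have h5 : (ρ / r + 1) * (2 * R / r + 1) ≤ (2 * (ρ / r)) * (3 * (R / r)) := by
        have e1 : ρ / r + 1 ≤ 2 * (ρ / r) := by linarith
        have e2 : 2 * R / r + 1 ≤ 3 * (R / r) := by
          have : 2 * R / r = 2 * (R / r) := by ring
          rw [this]; linarith
        have e3 : 0 ≤ 2 * R / r + 1 := by positivity
        exact mul_le_mul e1 e2 e3 (by positivity)
      have h6 : (2 * (ρ / r)) * (3 * (R / r)) ≤ 6 * M * (ρ / r) ^ s * (R / r) := by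
        have := mul_le_mul_of_nonneg_right h4 (show 0 ≤ R / r by positivity)
        nlinarith
      have h7 : 6 * M * (ρ / r) ^ s * (R / r) ≤ C1 K c M * (ρ / r) ^ s * (R / r) := by
        have : 6 * (M : ℝ) ≤ C1 K c M := by
          unfold C1
          have : 0 ≤ 16 * (2 * K + 1) / c := by positivity
          linarith
        gcongr
      linarith
    · rw [not_lt] at hA
      by_cases hB : c * Real.sqrt ρ < 8 * R
      · -- below the level window
        have h1 := direct2 (a := a) hG hr hT0 hsep hρ0.le ha haρ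
        set u := Real.sqrt ρ with hu
        set w := Real.sqrt r with hw
        have hu0 : 0 < u := Real.sqrt_pos.2 hρ0
        have hw0 : 0 < w := Real.sqrt_pos.2 hr
        have hρu : ρ = u ^ 2 := (Real.sq_sqrt hρ0.le).symm
        have hrw : r = w ^ 2 := (Real.sq_sqrt hr.le).symm
        have hw1 : w ≤ 1 := Real.sqrt_le_one.2 (hρr.trans hρ1)
        have h2 : (ρ / r + 1) * (2 * (K * w) / r + 1) ≤
            16 * (2 * K + 1) / c * (u / w) * (R / r) := by
          have e1 : ρ / r + 1 ≤ 2 * (ρ / r) := by linarith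
          have e2 : 2 * (K * w) / r + 1 ≤ (2 * K + 1) / w := by
            rw [hrw, le_div_iff₀ hw0]
            have : (2 * (K * w) / w ^ 2 + 1) * w = 2 * K + w := by field_simp
            rw [this]; linarith
          have e3 : 0 ≤ 2 * (K * w) / r + 1 := by positivity
          have e4 := mul_le_mul e1 e2 e3 (by positivity)
          refine e4.trans ?_
          rw [hρu, hrw]
          have e5 : 2 * (u ^ 2 / w ^ 2) * ((2 * K + 1) / w) =
            (2 * (2 * K + 1) * u / w ^ 3) * u := by field_simp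
          have e6 : 16 * (2 * K + 1) / c * (u / w) * (R / w ^ 2) =
            (2 * (2 * K + 1) * u / w ^ 3) * (8 * R / c) := by field_simp; ring
          rw [e5, e6]
          refine mul_le_mul_of_nonneg_left ?_ (by positivity)
          rw [le_div_iff₀ hc]
          linarith
        have h3 : u / w ≤ (ρ / r) ^ s := by
          have : u / w = (ρ / r) ^ (1 / 2 : ℝ) := by
            rw [← Real.sqrt_eq_rpow, Real.sqrt_div hρ0.le]
          rw [this]
          exact Real.rpow_le_rpow_of_exponent_le hq1 hs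
        have h4 : 16 * (2 * K + 1) / c * (u / w) * (R / r) ≤ C1 K c M * (ρ / r) ^ s * (R / r) := by
          have : 16 * (2 * K + 1) / c ≤ C1 K c M := by
            unfold C1
            have : 0 ≤ 6 * (M : ℝ) := by positivity
            linarith
          have hC1 : 0 ≤ C1 K c M := by unfold C1; positivity
          gcongr
        exact h1.trans (h2.trans h4)
      · -- porosity
        rw [not_lt] at hB
        have hρM : r ≤ ρ / M := by rw [le_div_iff₀ hM0]; linarith
        have hρM1 : ρ / M ≤ 1 := by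
          rw [div_le_iff₀ hM0]; linarith
        have hρMN : ρ / M < (M : ℝ) ^ N * r := by
          rw [div_lt_iff₀ hM0]
          rw [pow_succ] at hρN
          linarith
        have hd : 0 < ρ / M := by positivity
        have hMd : (M : ℝ) * (ρ / M) = ρ := by field_simp
        have hsubi : ∀ i < M, 0 ≤ a + i * (ρ / M) ∧ a + i * (ρ / M) + ρ / M ≤ 1 := by
          intro i hi
          have e1 : (i : ℝ) + 1 ≤ M := by exact_mod_cast hi
          constructor
          · positivity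
          · have : (i : ℝ) * (ρ / M) + ρ / M ≤ ρ := by
              calc (i : ℝ) * (ρ / M) + ρ / M = (i + 1) * (ρ / M) := by ring
                _ ≤ M * (ρ / M) := by gcongr
                _ = ρ := hMd
            linarith
        have hstep := subdivide (T := T) (a := a) (ρ := ρ)
          (B := C1 K c M * (ρ / M / r) ^ s * (R / r)) (by omega : 0 < M) hρ0
          (fun i hi => ih (ρ / M) hρM hρM1 hρMN _ (hsubi i hi).1 (hsubi i hi).2) ?_
        · refine hstep.trans ?_
          have e1 : ρ / M / r = (ρ / r) / M := by ring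
          rw [e1, Real.div_rpow (by positivity) hM0.le]
          have e2 : ((M : ℝ) - 1) * (C1 K c M * ((ρ / r) ^ s / (M : ℝ) ^ s) * (R / r)) =
            ((M - 1) / (M : ℝ) ^ s) * (C1 K c M * (ρ / r) ^ s * (R / r)) := by
            have : (M : ℝ) ^ s ≠ 0 := by positivity
            field_simp
          rw [e2]
          have e3 : ((M : ℝ) - 1) / (M : ℝ) ^ s ≤ 1 := by
            rw [div_le_one (by positivity)]; exact hMs
          have e4 : 0 ≤ C1 K c M * (ρ / r) ^ s * (R / r) := by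
            have : 0 ≤ C1 K c M := by unfold C1; positivity
            positivity
          exact mul_le_of_le_one_left e4 e3
        · -- an empty part
          obtain ⟨x, hx, y, hy, hxy⟩ := hG.osc a (a + ρ) ha (by linarith) haρ
          rw [add_sub_cancel_left] at hxy
          -- one of the points is far from the level
          obtain ⟨z, hz, hzy⟩ : ∃ z ∈ Icc a (a + ρ), c * Real.sqrt ρ / 2 ≤ |G z - y0| := by
            by_contra hcon
            push Not at hcon
            have e1 := hcon x hx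
            have e2 := hcon y hy
            have e3 : |G x - G y| ≤ |G x - y0| + |y0 - G y| := abs_sub_le _ _ _
            rw [abs_sub_comm y0] at e3
            linarith
          -- the part containing `z`
          have hex : ∃ i < M, a + i * (ρ / M) ≤ z ∧ z ≤ a + i * (ρ / M) + ρ / M := by
            rcases lt_or_ge ⌊(z - a) / (ρ / M)⌋₊ M with h | h
            · refine ⟨_, h, ?_⟩
              have e1 := Nat.floor_le (show 0 ≤ (z - a) / (ρ / M) from
                div_nonneg (sub_nonneg.2 hz.1) hd.le)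
              have e2 := Nat.lt_floor_add_one ((z - a) / (ρ / M))
              rw [le_div_iff₀ hd] at e1
              rw [div_lt_iff₀ hd] at e2
              constructor <;> linarith
            · refine ⟨M - 1, by omega, ?_⟩
              have e1 := (Nat.le_floor_iff (div_nonneg (sub_nonneg.2 hz.1) hd.le)).1 h
              rw [le_div_iff₀ hd, hMd] at e1
              have e3 : ((M - 1 : ℕ) : ℝ) = M - 1 := by
                rw [Nat.cast_sub (by omega)]; simp
              have e4 : ((M : ℝ) - 1) * (ρ / M) = ρ - ρ / M := by rw [sub_mul, hMd]; ring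
              rw [e3, e4]
              constructor <;> linarith [hz.2]
          obtain ⟨i, hi, hzi⟩ := hex
          refine ⟨i, hi, ?_⟩
          rw [Finset.eq_empty_iff_forall_notMem]
          intro p hp
          obtain ⟨hpT, hp1, hp2⟩ := mem_part.1 hp
          have e1 := hG.holder (p 0) (hT0 p hpT).1 z ⟨by linarith [hz.1], by linarith [hz.2]⟩
          have e2 : Real.sqrt |p 0 - z| ≤ Real.sqrt (ρ / M) := by
            apply Real.sqrt_le_sqrt
            rw [abs_le]; constructor <;> linarith [hzi.1, hzi.2]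
          have e3 : K * Real.sqrt (ρ / M) ≤ c / 4 * Real.sqrt ρ := by
            rw [Real.sqrt_div hρ0.le]
            have e4 : 4 * K / c ≤ Real.sqrt M := Real.le_sqrt_of_sq_le hMK
            have e5 : 0 < Real.sqrt M := Real.sqrt_pos.2 hM0
            rw [← mul_div_assoc, div_le_iff₀ e5]
            rw [div_le_iff₀ hc] at e4
            have e6 : 0 ≤ Real.sqrt ρ := Real.sqrt_nonneg _
            nlinarith
          have e4 := (hT0 p hpT).2.2
          rw [(hT0 p hpT).2.1] at e4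
          have e5 : |G z - y0| ≤ |G z - G (p 0)| + |G (p 0) - y0| := abs_sub_le _ _ _
          rw [abs_sub_comm (G z) (G (p 0))] at e5
          have e6 : |G (p 0) - G z| ≤ c / 4 * Real.sqrt ρ :=
            e1.trans ((mul_le_mul_of_nonneg_left e2 hK.le).trans e3)
          linarith

include hG hM2 hMK hs hs1 hMs hr hrR hT0 hsep in
lemma total {x0 : ℝ} (hx0 : x0 ∈ Icc (0 : ℝ) 1) (hTx : ∀ p ∈ T, |p 0 - x0| ≤ R) :
    (T.card : ℝ) ≤ 2 * C1 K c M * (R / r) ^ (1 + s) := by
  have hR : 0 < R := hr.trans hrR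
  have hc := hG.c_pos
  have hK : 0 < K := lt_of_lt_of_le one_pos hG.K_ge
  have hM0 : (0 : ℝ) < M := by exact_mod_cast (by omega : 0 < M)
  have hM1 : (1 : ℝ) < M := by exact_mod_cast (by omega : 1 < M)
  have hRr : 1 ≤ R / r := (one_le_div hr).2 hrR.le
  have hRr0 : 0 < R / r := by positivity
  have hC1 : 6 ≤ C1 K c M := by
    unfold C1
    have : 0 ≤ 16 * (2 * K + 1) / c := by positivity
    nlinarith
  have hpow : (R / r) ^ (1 + s) = (R / r) ^ s * (R / r) := by
    rw [add_comm, Real.rpow_add hRr0, Real.rpow_one]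
  -- a covering interval
  obtain ⟨a, ρ, ha, haρ, hρ0, hρ2, hall, hρ⟩ : ∃ a ρ : ℝ, 0 ≤ a ∧ a + ρ ≤ 1 ∧ 0 < ρ ∧ ρ ≤ 2 * R ∧
      (∀ p ∈ T, a ≤ p 0 ∧ p 0 ≤ a + ρ) ∧ (ρ = 1 ∨ ρ = 2 * R) := by
    rcases le_total 1 (2 * R) with h | h
    · refine ⟨0, 1, le_rfl, by norm_num, one_pos, h, fun p hp => ?_, Or.inl rfl⟩
      have := (hT0 p hp).1
      exact ⟨this.1, by linarith [this.2]⟩
    · refine ⟨max 0 (min (x0 - R) (1 - 2 * R)), 2 * R, le_max_left _ _, ?_, by positivity, le_rfl,
        fun p hp => ?_, Or.inr rfl⟩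
      · have : max 0 (min (x0 - R) (1 - 2 * R)) ≤ 1 - 2 * R :=
          max_le (by linarith) (min_le_right _ _)
        linarith
      · have h1 := abs_le.1 (hTx p hp)
        have h2 := (hT0 p hp).1
        constructor
        · exact max_le h2.1 ((min_le_left _ _).trans (by linarith [h1.1]))
        · rcases le_total (x0 - R) (1 - 2 * R) with h3 | h3
          · rw [min_eq_left h3]
            have := le_max_right 0 (x0 - R)
            linarith [h1.2]
          · rw [min_eq_right h3]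
            have := le_max_right 0 (1 - 2 * R)
            linarith [h2.2]
  have hpart : part T a ρ = T := by
    ext p
    rw [mem_part]
    exact ⟨fun h => h.1, fun h => ⟨h, hall p h⟩⟩
  rcases le_or_gt r ρ with h | h
  · obtain ⟨N, hN⟩ := pow_unbounded_of_one_lt (ρ / r) hM1
    rw [div_lt_iff₀ hr] at hN
    have h1 := scales hG hM2 hMK hs hs1 hMs hr hrR hT0 hsep N ρ h (by linarith) hN a ha haρ
    rw [hpart] at h1
    refine h1.trans ?_
    rw [hpow]
    have h2 : (ρ / r) ^ s ≤ 2 * (R / r) ^ s := by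
      calc (ρ / r) ^ s ≤ (2 * (R / r)) ^ s := by
            apply Real.rpow_le_rpow (by positivity) _ (by linarith)
            rw [← mul_div_assoc]; gcongr
        _ = 2 ^ s * (R / r) ^ s := Real.mul_rpow (by norm_num) (by positivity)
        _ ≤ 2 * (R / r) ^ s := by
            have : (2 : ℝ) ^ s ≤ 2 ^ (1 : ℝ) :=
              Real.rpow_le_rpow_of_exponent_le (by norm_num) hs1.le
            rw [Real.rpow_one] at this
            gcongr
    calc C1 K c M * (ρ / r) ^ s * (R / r) ≤ C1 K c M * (2 * (R / r) ^ s) * (R / r) := by gcongr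
      _ = _ := by ring
  · have h1 := direct1 (a := a) hr hrR hT0 hsep hρ0.le
    rw [hpart] at h1
    refine h1.trans ?_
    have h2 : ρ / r + 1 ≤ 2 := by
      have : ρ / r ≤ 1 := (div_le_one hr).2 h.le
      linarith
    have h3 : 2 * R / r + 1 ≤ 3 * (R / r) := by
      have : 2 * R / r = 2 * (R / r) := by ring
      rw [this]; linarith
    have h4 : R / r ≤ (R / r) ^ (1 + s) := by
      rw [hpow]
      have := Real.one_le_rpow hRr (show 0 ≤ s by linarith)
      nlinarith
    have h5 : (ρ / r + 1) * (2 * R / r + 1) ≤ 2 * (3 * (R / r)) :=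
      mul_le_mul h2 h3 (by positivity) (by norm_num)
    calc _ ≤ 2 * (3 * (R / r)) := h5
      _ = 6 * (R / r) := by ring
      _ ≤ 6 * (R / r) ^ (1 + s) := by gcongr
      _ ≤ 2 * C1 K c M * (R / r) ^ (1 + s) := by
          have : (6 : ℝ) ≤ 2 * C1 K c M := by linarith
          gcongr

end main

/-- existence of the parameters -/
lemma params (K c : ℝ) : ∃ (M : ℕ) (s : ℝ), 2 ≤ M ∧ (4 * K / c) ^ 2 ≤ M ∧ 1 / 2 ≤ s ∧ s < 1 ∧
    (M : ℝ) - 1 ≤ (M : ℝ) ^ s := by
  set M : ℕ := ⌈(4 * K / c) ^ 2⌉₊ + 2 with hM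
  have hM2 : 2 ≤ M := by omega
  have h1 : (4 * K / c) ^ 2 ≤ M := by
    have := Nat.le_ceil ((4 * K / c) ^ 2)
    rw [hM]; push_cast; linarith
  have hM1 : (1 : ℝ) < M := by exact_mod_cast (by omega : 1 < M)
  have hM0 : (0 : ℝ) < (M : ℝ) - 1 := by linarith
  have hlog : 0 < Real.log M := Real.log_pos hM1
  refine ⟨M, max (1 / 2) (Real.log (M - 1) / Real.log M), hM2, h1, le_max_left _ _, ?_, ?_⟩
  · apply max_lt (by norm_num)
    rw [div_lt_one hlog]
    exact Real.log_lt_log hM0 (by linarith)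
  · have e1 : (M : ℝ) - 1 = (M : ℝ) ^ (Real.log (M - 1) / Real.log M) := by
      rw [Real.rpow_def_of_pos (by linarith), mul_div_cancel₀ _ hlog.ne', Real.exp_log hM0]
    calc (M : ℝ) - 1 = (M : ℝ) ^ (Real.log (M - 1) / Real.log M) := e1
      _ ≤ _ := Real.rpow_le_rpow_of_exponent_le hM1.le (le_max_right _ _)

end Pool.Agent.R221.Om
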