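import Mathlib

set_option autoImplicit false

open Filter Topology Set

namespace Pool.Agent.R221.Om

/-- distance to the nearest integer -/
noncomputable def phi (x : ℝ) : ℝ := |x - round x|

lemma phi_nonneg (x : ℝ) : 0 ≤ phi x := abs_nonneg _

lemma phi_le (x : ℝ) : phi x ≤ 1 / 2 := abs_sub_round x

lemma phi_le_add (x y : ℝ) : phi x ≤ |x - y| + phi y := by
  have h1 : phi x ≤ |x - round y| := round_le x (round y)
  have h2 : |x - (round y : ℝ)| ≤ |x - y| + |y - round y| := abs_sub_le _ _ _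
  exact h1.trans h2

lemma phi_lip (x y : ℝ) : |phi x - phi y| ≤ |x - y| := by
  have h1 := phi_le_add x y
  have h2 := phi_le_add y x
  rw [abs_sub_comm y x] at h2
  rw [abs_le]; constructor <;> linarith

lemma phi_add_int (x : ℝ) (n : ℤ) : phi (x + n) = phi x := by
  unfold phi
  rw [round_add_intCast]
  push_cast
  congr 1
  ring

lemma phi_int (n : ℤ) : phi n = 0 := by simp [phi]

lemma phi_half : phi (1 / 2) = 1 / 2 := by
  unfold phi
  rw [one_div, round_two_inv]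
  norm_num

/-- the function of Takagi type -/
noncomputable def tak (x : ℝ) : ℝ := ∑' j : ℕ, (1 / 4 : ℝ) ^ j * phi (16 ^ j * x)

lemma summable_tak (x : ℝ) : Summable fun j : ℕ => (1 / 4 : ℝ) ^ j * phi (16 ^ j * x) := by
  refine Summable.of_nonneg_of_le (fun j => mul_nonneg (by positivity) (phi_nonneg _))
    (fun j => ?_) ((summable_geometric_of_lt_one (r := (1 / 4 : ℝ)) (by norm_num)
      (by norm_num)).mul_right (1 / 2))
  exact mul_le_mul_of_nonneg_left (phi_le _) (by positivity)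

/-- the terms of the difference -/
noncomputable def dterm (x y : ℝ) (j : ℕ) : ℝ :=
  (1 / 4 : ℝ) ^ j * (phi (16 ^ j * x) - phi (16 ^ j * y))

lemma tak_sub (x y : ℝ) : tak x - tak y = ∑' j, dterm x y j := by
  unfold tak dterm
  rw [← (summable_tak x).tsum_sub (summable_tak y)]
  exact tsum_congr fun j => by ring

lemma summable_dterm (x y : ℝ) : Summable (dterm x y) := by
  refine ((summable_tak x).sub (summable_tak y)).congr fun j => ?_
  unfold dterm; ring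

lemma dterm_le (x y : ℝ) (j : ℕ) : |dterm x y j| ≤ 4 ^ j * |x - y| := by
  unfold dterm
  rw [abs_mul, abs_of_nonneg (by positivity : (0 : ℝ) ≤ (1 / 4) ^ j)]
  have h1 := phi_lip (16 ^ j * x) (16 ^ j * y)
  rw [← mul_sub, abs_mul, abs_of_nonneg (by positivity : (0 : ℝ) ≤ 16 ^ j)] at h1
  calc (1 / 4 : ℝ) ^ j * |phi (16 ^ j * x) - phi (16 ^ j * y)|
      ≤ (1 / 4) ^ j * (16 ^ j * |x - y|) := by gcongr
    _ = ((1 / 4) * 16) ^ j * |x - y| := by rw [mul_pow]; ring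
    _ = _ := by norm_num

lemma dterm_le' (x y : ℝ) (j : ℕ) : |dterm x y j| ≤ (1 / 4) ^ j * (1 / 2) := by
  unfold dterm
  rw [abs_mul, abs_of_nonneg (by positivity : (0 : ℝ) ≤ (1 / 4) ^ j)]
  have h1 := phi_nonneg (16 ^ j * x)
  have h2 := phi_nonneg (16 ^ j * y)
  have h3 := phi_le (16 ^ j * x)
  have h4 := phi_le (16 ^ j * y)
  gcongr
  rw [abs_le]; constructor <;> linarith

lemma geom4 (k : ℕ) : ∑ j ∈ Finset.range k, (4 : ℝ) ^ j = (4 ^ k - 1) / 3 := by
  rw [geom_sum_eq (by norm_num)]; norm_num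

/-- the Hölder bound -/
lemma tak_holder (x y : ℝ) (h : |x - y| ≤ 1) : |tak x - tak y| ≤ 2 * Real.sqrt |x - y| := by
  rcases (abs_nonneg (x - y)).eq_or_lt with h0 | h0
  · have : x = y := by
      have := abs_eq_zero.1 h0.symm; linarith
    rw [this]; simp
  set s := Real.sqrt |x - y| with hs
  have hs0 : 0 < s := Real.sqrt_pos.2 h0
  have hs1 : s ≤ 1 := Real.sqrt_le_one.2 h
  have hs2 : |x - y| = s ^ 2 := (Real.sq_sqrt h0.le).symm
  obtain ⟨K, hK1, hK2⟩ := exists_nat_pow_near_of_lt_one hs0 hs1 (show (0 : ℝ) < 1 / 4 by norm_num)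
    (by norm_num)
  rw [tak_sub, ← (summable_dterm x y).sum_add_tsum_nat_add (K + 1)]
  have h1 : |∑ j ∈ Finset.range (K + 1), dterm x y j| ≤ (4 / 3) * s := by
    calc |∑ j ∈ Finset.range (K + 1), dterm x y j| ≤ ∑ j ∈ Finset.range (K + 1), |dterm x y j| :=
          Finset.abs_sum_le_sum_abs _ _
      _ ≤ ∑ j ∈ Finset.range (K + 1), 4 ^ j * s ^ 2 :=
          Finset.sum_le_sum fun j _ => by rw [← hs2]; exact dterm_le x y j
      _ = (4 ^ (K + 1) - 1) / 3 * s ^ 2 := by rw [← Finset.sum_mul, geom4]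
      _ ≤ 4 ^ (K + 1) / 3 * s ^ 2 := by gcongr; linarith
      _ = (4 / 3) * s * (4 ^ K * s) := by rw [pow_succ]; ring
      _ ≤ (4 / 3) * s * (4 ^ K * (1 / 4) ^ K) := by gcongr
      _ = (4 / 3) * s := by rw [← mul_pow]; norm_num
  have h2 : |∑' j, dterm x y (j + (K + 1))| ≤ (2 / 3) * s := by
    have hsum : Summable fun j : ℕ => (1 / 4 : ℝ) ^ (j + (K + 1)) * (1 / 2) := by
      have := (summable_geometric_of_lt_one (r := (1 / 4 : ℝ)) (by norm_num)
        (by norm_num)).mul_right ((1 / 4 : ℝ) ^ (K + 1) * (1 / 2))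
      refine this.congr fun j => ?_
      rw [pow_add]; ring
    have h3 : |∑' j, dterm x y (j + (K + 1))| ≤ ∑' j : ℕ, (1 / 4 : ℝ) ^ (j + (K + 1)) * (1 / 2) := by
      rw [← Real.norm_eq_abs]
      exact tsum_of_norm_bounded hsum.hasSum fun j => by
        rw [Real.norm_eq_abs]; exact dterm_le' x y _
    refine h3.trans ?_
    have h4 : ∑' j : ℕ, (1 / 4 : ℝ) ^ (j + (K + 1)) * (1 / 2) = (2 / 3) * (1 / 4) ^ (K + 1) := by
      have : ∀ j : ℕ, (1 / 4 : ℝ) ^ (j + (K + 1)) * (1 / 2) =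
        (1 / 4) ^ j * ((1 / 4) ^ (K + 1) * (1 / 2)) := fun j => by rw [pow_add]; ring
      simp_rw [this]
      rw [tsum_mul_right, tsum_geometric_of_lt_one (by norm_num) (by norm_num)]
      ring
    rw [h4]
    gcongr
  calc _ ≤ |∑ j ∈ Finset.range (K + 1), dterm x y j| + |∑' j, dterm x y (j + (K + 1))| :=
        abs_add_le _ _
    _ ≤ (4 / 3) * s + (2 / 3) * s := add_le_add h1 h2
    _ = 2 * s := by ring

/-- oscillation at dyadic points -/
lemma tak_osc (n : ℤ) (k : ℕ) :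
    (1 / 4 : ℝ) ^ k / 3 ≤ |tak ((n + 1 / 2) / 16 ^ k) - tak (n / 16 ^ k)| := by
  set x : ℝ := (n + 1 / 2) / 16 ^ k with hx
  set y : ℝ := n / 16 ^ k with hy
  have hxy : x - y = 1 / 2 / 16 ^ k := by rw [hx, hy]; ring
  have hxy' : |x - y| = 1 / 2 / 16 ^ k := by rw [hxy]; exact abs_of_pos (by positivity)
  have hzero : ∀ j ∉ Finset.range (k + 1), dterm x y j = 0 := by
    intro j hj
    rw [Finset.mem_range, not_lt] at hj
    obtain ⟨i, rfl⟩ := Nat.exists_eq_add_of_le hj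
    have h1 : (16 : ℝ) ^ (k + 1 + i) * x = 16 ^ (k + 1 + i) * y + ((8 * 16 ^ i : ℤ) : ℝ) := by
      rw [hx, hy]
      push_cast
      rw [pow_add, pow_succ]
      field_simp
      ring
    unfold dterm
    rw [h1, phi_add_int, sub_self, mul_zero]
  rw [tak_sub, tsum_eq_sum hzero, Finset.sum_range_succ]
  have h1 : |∑ j ∈ Finset.range k, dterm x y j| ≤ (1 / 4) ^ k / 6 := by
    calc |∑ j ∈ Finset.range k, dterm x y j| ≤ ∑ j ∈ Finset.range k, |dterm x y j| :=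
          Finset.abs_sum_le_sum_abs _ _
      _ ≤ ∑ j ∈ Finset.range k, 4 ^ j * (1 / 2 / 16 ^ k) :=
          Finset.sum_le_sum fun j _ => by rw [← hxy']; exact dterm_le x y j
      _ = (4 ^ k - 1) / 3 * (1 / 2 / 16 ^ k) := by rw [← Finset.sum_mul, geom4]
      _ ≤ 4 ^ k / 3 * (1 / 2 / 16 ^ k) := by gcongr; linarith
      _ = (4 / 16) ^ k / 6 := by rw [div_pow]; ring
      _ = (1 / 4) ^ k / 6 := by norm_num
  have h2 : dterm x y k = (1 / 4) ^ k / 2 := by
    unfold dterm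
    have e1 : (16 : ℝ) ^ k * x = 1 / 2 + n := by rw [hx]; field_simp; ring
    have e2 : (16 : ℝ) ^ k * y = n := by rw [hy]; field_simp
    rw [e1, e2, phi_add_int, phi_half, phi_int]
    ring
  rw [h2]
  have h3 := abs_le.1 h1
  refine le_trans ?_ (le_abs_self _)
  linarith [h3.1]

/-- lower bound for the oscillation on intervals -/
lemma tak_lower {a b : ℝ} (hab : a < b) (hab1 : b - a ≤ 1) :
    ∃ x ∈ Icc a b, ∃ y ∈ Icc a b, (1 / 48) * Real.sqrt (b - a) ≤ |tak x - tak y| := by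
  have h0 : 0 < b - a := sub_pos.2 hab
  set s := Real.sqrt (b - a) with hs
  have hs0 : 0 < s := Real.sqrt_pos.2 h0
  have hs1 : s ≤ 1 := Real.sqrt_le_one.2 hab1
  have hs2 : b - a = s ^ 2 := (Real.sq_sqrt h0.le).symm
  obtain ⟨K, hK1, hK2⟩ := exists_nat_pow_near_of_lt_one hs0 hs1 (show (0 : ℝ) < 1 / 4 by norm_num)
    (by norm_num)
  set k := K + 2 with hk
  set n : ℤ := ⌈(16 : ℝ) ^ k * a⌉ with hn
  have hp : (0 : ℝ) < 16 ^ k := by positivity
  have hn1 : (16 : ℝ) ^ k * a ≤ n := Int.le_ceil _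
  have hn2 : (n : ℝ) < 16 ^ k * a + 1 := Int.ceil_lt_add_one _
  have h16 : (3 / 2 : ℝ) ≤ 16 ^ k * (b - a) := by
    rw [hs2]
    have e1 : ((1 / 4 : ℝ) ^ (K + 1)) ^ 2 ≤ s ^ 2 := by gcongr
    have e2 : (16 : ℝ) ^ k * ((1 / 4 : ℝ) ^ (K + 1)) ^ 2 = 16 := by
      rw [← pow_mul, mul_comm (K + 1) 2, pow_mul, hk, show K + 2 = K + 1 + 1 by ring, pow_succ]
      rw [show ((1 / 4 : ℝ) ^ 2) = 1 / 16 by norm_num, mul_right_comm, ← mul_pow]
      norm_num
    nlinarith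
  have hx1 : a ≤ (n : ℝ) / 16 ^ k := by rw [le_div_iff₀ hp]; linarith
  have hx2 : ((n : ℝ) + 1 / 2) / 16 ^ k ≤ b := by
    rw [div_le_iff₀ hp]; nlinarith
  have hx3 : (n : ℝ) / 16 ^ k ≤ ((n : ℝ) + 1 / 2) / 16 ^ k := by gcongr; linarith
  refine ⟨((n : ℝ) + 1 / 2) / 16 ^ k, ⟨hx1.trans hx3, hx2⟩, (n : ℝ) / 16 ^ k,
    ⟨hx1, hx3.trans hx2⟩, ?_⟩
  refine le_trans ?_ (tak_osc n k)
  have : (1 / 4 : ℝ) ^ k = (1 / 4) ^ K / 16 := by rw [hk, pow_add]; norm_num; ring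
  rw [this]
  linarith

end Pool.Agent.R221.Om
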