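import Pool.Agent.R221.Om.Space
import Pool.Agent.R221.Om.Takagi
import Pool.Agent.R221.Om.Assouad

set_option autoImplicit false

open Filter Topology Set
open scoped ENNReal NNReal

namespace Pool.Agent.R221.Om

/-- The graph of `f : [0, 1] → ℝ`. -/
def graph (f : I01 → ℝ) : Set Plane := range fun x : I01 => !₂[(x : ℝ), f x]

lemma sqrt_modulus : IsModulus Real.sqrt where
  mono := fun _ _ _ _ h => Real.sqrt_le_sqrt h
  zero := Real.sqrt_zero
  pos := fun _ h _ => Real.sqrt_pos.2 h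
  lim := by
    have := (Real.continuous_sqrt.tendsto 0).mono_left (nhdsWithin_le_nhds (s := Ioi 0))
    simpa using this

lemma sqrt_concave : ConcaveOn ℝ (Icc 0 1) Real.sqrt :=
  Real.strictConcaveOn_sqrt.concaveOn.subset Icc_subset_Ici_self (convex_Icc 0 1)

lemma sqrt_ratio : Tendsto (fun t : ℝ => Real.sqrt t / t) (𝓝[>] 0) atTop := by
  have h1 : Tendsto (fun t : ℝ => (Real.sqrt t)⁻¹) (𝓝[>] 0) atTop := by
    refine tendsto_inv_nhdsGT_zero.comp ?_
    rw [tendsto_nhdsWithin_iff]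
    refine ⟨sqrt_modulus.lim, ?_⟩
    filter_upwards [self_mem_nhdsWithin] with t ht
    exact Real.sqrt_pos.2 ht
  refine h1.congr' ?_
  filter_upwards [self_mem_nhdsWithin] with t ht
  have ht' : (0 : ℝ) < t := ht
  have h2 : 0 < Real.sqrt t := Real.sqrt_pos.2 ht'
  have h3 : t = Real.sqrt t * Real.sqrt t := (Real.mul_self_sqrt ht'.le).symm
  rw [inv_eq_one_div, div_eq_div_iff h2.ne' ht'.ne', one_mul]
  exact h3

instance sqrtFact : Fact (IsModulus Real.sqrt) := ⟨sqrt_modulus⟩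

/-- the centre of the ball -/
noncomputable def f0 : CSpace Real.sqrt :=
  ⟨fun x => tak x, 2, fun x y => tak_holder x y (abs_le_one x y)⟩

lemma rough_of_near (g : CSpace Real.sqrt) (hg : dist g f0 < 1 / 96) :
    Rough (fun x => g.toFun (projIcc 0 1 zero_le_one x)) 3 (1 / 96) := by
  have key : ∀ x (hx : x ∈ Icc (0 : ℝ) 1) y (hy : y ∈ Icc (0 : ℝ) 1),
      |(g.toFun ⟨x, hx⟩ - tak x) - (g.toFun ⟨y, hy⟩ - tak y)| ≤ 1 / 96 * Real.sqrt |x - y| := by
    intro x hx y hy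
    have h1 := abs_sub_le_dist g f0 ⟨x, hx⟩ ⟨y, hy⟩
    refine h1.trans ?_
    exact mul_le_mul_of_nonneg_right hg.le (Real.sqrt_nonneg _)
  refine ⟨by norm_num, by norm_num, ?_, ?_⟩
  · intro x hx y hy
    simp only [projIcc_of_mem zero_le_one hx, projIcc_of_mem zero_le_one hy]
    have h1 := key x hx y hy
    have h2 := tak_holder x y (abs_le_one ⟨x, hx⟩ ⟨y, hy⟩)
    have h3 : |g.toFun ⟨x, hx⟩ - g.toFun ⟨y, hy⟩| ≤
        |(g.toFun ⟨x, hx⟩ - tak x) - (g.toFun ⟨y, hy⟩ - tak y)| + |tak x - tak y| := by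
      have : g.toFun ⟨x, hx⟩ - g.toFun ⟨y, hy⟩ =
        ((g.toFun ⟨x, hx⟩ - tak x) - (g.toFun ⟨y, hy⟩ - tak y)) + (tak x - tak y) := by ring
      rw [this]; exact abs_add_le _ _
    have h4 := Real.sqrt_nonneg |x - y|
    linarith
  · intro a b ha hab hb
    obtain ⟨x, hx, y, hy, hxy⟩ := tak_lower hab (by linarith)
    have hx' : x ∈ Icc (0 : ℝ) 1 := ⟨by linarith [hx.1], by linarith [hx.2]⟩
    have hy' : y ∈ Icc (0 : ℝ) 1 := ⟨by linarith [hy.1], by linarith [hy.2]⟩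
    refine ⟨x, hx, y, hy, ?_⟩
    simp only [projIcc_of_mem zero_le_one hx', projIcc_of_mem zero_le_one hy']
    have h1 := key x hx' y hy'
    have h2 : Real.sqrt |x - y| ≤ Real.sqrt (b - a) := by
      apply Real.sqrt_le_sqrt
      rw [abs_le]; constructor <;> linarith [hx.1, hx.2, hy.1, hy.2]
    have h3 : |tak x - tak y| ≤ |g.toFun ⟨x, hx'⟩ - g.toFun ⟨y, hy'⟩| +
        |(g.toFun ⟨x, hx'⟩ - tak x) - (g.toFun ⟨y, hy'⟩ - tak y)| := by
      have : tak x - tak y = (g.toFun ⟨x, hx'⟩ - g.toFun ⟨y, hy'⟩) -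
        ((g.toFun ⟨x, hx'⟩ - tak x) - (g.toFun ⟨y, hy'⟩ - tak y)) := by ring
      rw [this]; exact abs_sub _ _
    linarith

lemma dimA_lt (g : CSpace Real.sqrt) (hg : dist g f0 < 1 / 96) : dimA (graph g.toFun) < 2 := by
  have hR := rough_of_near g hg
  obtain ⟨M, s, hM2, hMK, hs, hs1, hMs⟩ := params 3 (1 / 96)
  have hC : 0 < 2 * C1 3 (1 / 96) M := by unfold C1; positivity
  have hβ : ((Real.toNNReal (1 + s) : ℝ≥0) : ℝ) = 1 + s := Real.coe_toNNReal _ (by linarith)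
  have h := dimA_le (F := graph g.toFun) (β := Real.toNNReal (1 + s)) hC ?_
  · refine lt_of_le_of_lt h ?_
    have : Real.toNNReal (1 + s) < 2 := by
      rw [← NNReal.coe_lt_coe, hβ]
      simp only [NNReal.coe_ofNat]
      linarith
    exact_mod_cast this
  · rintro r R hr hrR _ ⟨x, rfl⟩ T hT hsep
    rw [hβ]
    have hp : ∀ p ∈ T, ∃ t : I01, p = !₂[(t : ℝ), g.toFun t] ∧
        dist p !₂[(x : ℝ), g.toFun x] < R := by
      intro p hp
      obtain ⟨h1, ⟨t, rfl⟩⟩ := hT hp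
      exact ⟨t, rfl, h1⟩
    refine total hR hM2 hMK hs hs1 hMs hr hrR (y0 := g.toFun x) ?_ hsep (x0 := (x : ℝ)) x.2 ?_
    · intro p hpT
      obtain ⟨t, rfl, hd⟩ := hp p hpT
      have h2 := plane_coord_le !₂[(t : ℝ), g.toFun t] !₂[(x : ℝ), g.toFun x] 1
      refine ⟨by simpa using t.2, ?_, ?_⟩
      · simp
      · refine le_trans ?_ hd.le
        simpa using h2
    · intro p hpT
      obtain ⟨t, rfl, hd⟩ := hp p hpT
      have h2 := plane_coord_le !₂[(t : ℝ), g.toFun t] !₂[(x : ℝ), g.toFun x] 0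
      refine le_trans ?_ hd.le
      simpa using h2

end Pool.Agent.R221.Om
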