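import Mathlib

set_option autoImplicit false

open Filter Topology Set
open scoped ENNReal NNReal

namespace Pool.Agent.R221.Om

/-- The unit interval `[0, 1]`. -/
abbrev I01 : Type := Icc (0 : ℝ) 1

/-- A (finite) modulus of continuity on `[0, 1]`. -/
structure IsModulus (ω : ℝ → ℝ) : Prop where
  mono : MonotoneOn ω (Icc 0 1)
  zero : ω 0 = 0
  pos : ∀ t, 0 < t → t ≤ 1 → 0 < ω t
  lim : Tendsto ω (𝓝[>] 0) (𝓝 0)

/-- `[h]_ω < ∞`. -/
def InC (ω : ℝ → ℝ) (h : I01 → ℝ) : Prop :=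
  ∃ C : ℝ, ∀ x y : I01, |h x - h y| ≤ C * ω |(x : ℝ) - y|

/-- `[h]_ω = sup_{x ≠ y} |h x - h y| / ω |x - y|`. -/
noncomputable def semi (ω : ℝ → ℝ) (h : I01 → ℝ) : ℝ :=
  ⨆ p : {p : I01 × I01 // p.1 ≠ p.2}, |h p.1.1 - h p.1.2| / ω |(p.1.1 : ℝ) - p.1.2|

/-- `‖h‖_ω = ‖h‖_∞ + [h]_ω`. -/
noncomputable def normC (ω : ℝ → ℝ) (h : I01 → ℝ) : ℝ := (⨆ x, |h x|) + semi ω h

/-- The space `C^ω[0, 1]`. -/
structure CSpace (ω : ℝ → ℝ) where
  toFun : I01 → ℝ
  mem : InC ω toFun

section lemmas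

variable {ω : ℝ → ℝ} (hω : IsModulus ω)

lemma abs_le_one (x y : I01) : |(x : ℝ) - y| ≤ 1 := by
  have h1 := x.2.1; have h2 := x.2.2; have h3 := y.2.1; have h4 := y.2.2
  rw [abs_le]; constructor <;> linarith

include hω in
lemma omega_nonneg (x y : I01) : 0 ≤ ω |(x : ℝ) - y| := by
  rcases (abs_nonneg ((x : ℝ) - y)).eq_or_lt with h | h
  · rw [← h, hω.zero]
  · exact (hω.pos _ h (abs_le_one x y)).le

include hω in
lemma omega_pos {x y : I01} (h : x ≠ y) : 0 < ω |(x : ℝ) - y| :=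
  hω.pos _ (abs_pos.2 (sub_ne_zero.2 fun h' => h (Subtype.ext h'))) (abs_le_one x y)

include hω in
lemma omega_le (x y : I01) : ω |(x : ℝ) - y| ≤ ω 1 :=
  hω.mono ⟨abs_nonneg _, abs_le_one x y⟩ ⟨zero_le_one, le_rfl⟩ (abs_le_one x y)

include hω in
lemma bdd_sup {h : I01 → ℝ} (hh : InC ω h) : BddAbove (range fun x => |h x|) := by
  obtain ⟨C, hC⟩ := hh
  have z : I01 := ⟨0, by simp⟩
  refine ⟨|h z| + |C| * ω 1, ?_⟩
  rintro _ ⟨x, rfl⟩
  have h1 := hC x z
  have h2 : C * ω |(x : ℝ) - z| ≤ |C| * ω 1 :=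
    mul_le_mul (le_abs_self C) (omega_le hω x z) (omega_nonneg hω x z) (abs_nonneg C)
  have h3 := abs_sub_abs_le_abs_sub (h x) (h z)
  simp only
  linarith

include hω in
lemma bdd_semi {h : I01 → ℝ} (hh : InC ω h) : BddAbove
    (range fun p : {p : I01 × I01 // p.1 ≠ p.2} =>
      |h p.1.1 - h p.1.2| / ω |(p.1.1 : ℝ) - p.1.2|) := by
  obtain ⟨C, hC⟩ := hh
  refine ⟨C, ?_⟩
  rintro _ ⟨p, rfl⟩
  simp only
  rw [div_le_iff₀ (omega_pos hω p.2)]
  exact hC _ _

include hω in
lemma abs_le_sup {h : I01 → ℝ} (hh : InC ω h) (x : I01) : |h x| ≤ ⨆ x, |h x| :=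
  le_ciSup (bdd_sup hω hh) x

include hω in
lemma abs_sub_le_semi {h : I01 → ℝ} (hh : InC ω h) (x y : I01) :
    |h x - h y| ≤ semi ω h * ω |(x : ℝ) - y| := by
  rcases eq_or_ne x y with rfl | hne
  · simp [hω.zero]
  · have := le_ciSup (bdd_semi hω hh) ⟨(x, y), hne⟩
    simp only at this
    rwa [div_le_iff₀ (omega_pos hω hne)] at this

include hω in
lemma sup_nonneg {h : I01 → ℝ} (hh : InC ω h) : 0 ≤ ⨆ x, |h x| :=
  (abs_nonneg _).trans (abs_le_sup hω hh ⟨0, by simp⟩)

include hω in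
lemma semi_nonneg {h : I01 → ℝ} (hh : InC ω h) : 0 ≤ semi ω h := by
  have hne : (⟨0, by simp⟩ : I01) ≠ ⟨1, by simp⟩ := by
    intro h; simpa using congrArg Subtype.val h
  have := le_ciSup (bdd_semi hω hh) ⟨(⟨0, by simp⟩, ⟨1, by simp⟩), hne⟩
  refine le_trans ?_ this
  exact div_nonneg (abs_nonneg _) (omega_nonneg hω _ _)

include hω in
lemma normC_le {h : I01 → ℝ} {a b : ℝ} (ha : ∀ x, |h x| ≤ a)
    (hb : ∀ x y : I01, |h x - h y| ≤ b * ω |(x : ℝ) - y|) : normC ω h ≤ a + b := by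
  have : Nonempty {p : I01 × I01 // p.1 ≠ p.2} :=
    ⟨⟨(⟨0, by simp⟩, ⟨1, by simp⟩), by intro h; simpa using congrArg Subtype.val h⟩⟩
  refine add_le_add (ciSup_le ha) (ciSup_le fun p => ?_)
  rw [div_le_iff₀ (omega_pos hω p.2)]
  exact hb _ _

include hω in
lemma abs_le_norm {h : I01 → ℝ} (hh : InC ω h) (x : I01) : |h x| ≤ normC ω h := by
  have h1 := abs_le_sup hω hh x
  have h2 := semi_nonneg hω hh
  unfold normC; linarith

include hω in
lemma abs_sub_le_norm {h : I01 → ℝ} (hh : InC ω h) (x y : I01) :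
    |h x - h y| ≤ normC ω h * ω |(x : ℝ) - y| := by
  refine (abs_sub_le_semi hω hh x y).trans ?_
  refine mul_le_mul_of_nonneg_right ?_ (omega_nonneg hω x y)
  have := sup_nonneg hω hh
  unfold normC; linarith

lemma InC.sub {f g : I01 → ℝ} (hω : IsModulus ω) (hf : InC ω f) (hg : InC ω g) :
    InC ω (fun x => f x - g x) := by
  obtain ⟨C, hC⟩ := hf
  obtain ⟨C', hC'⟩ := hg
  refine ⟨C + C', fun x y => ?_⟩
  have h1 := hC x y
  have h2 := hC' x y
  have h3 : |f x - g x - (f y - g y)| ≤ |f x - f y| + |g x - g y| := by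
    have : f x - g x - (f y - g y) = (f x - f y) - (g x - g y) := by ring
    rw [this]; exact abs_sub _ _
  linarith

end lemmas

variable {ω : ℝ → ℝ} [hω : Fact (IsModulus ω)]

/-- The metric `d(f, g) = ‖f - g‖_ω` on `C^ω[0, 1]`. -/
noncomputable instance : MetricSpace (CSpace ω) where
  dist f g := normC ω fun x => f.toFun x - g.toFun x
  dist_self f := by
    have h0 : (fun x => f.toFun x - f.toFun x) = fun _ => (0 : ℝ) := by funext x; ring
    simp only [h0]
    refine le_antisymm ?_ ?_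
    · have := normC_le hω.out (h := fun _ => (0 : ℝ)) (a := 0) (b := 0) (by simp) (by simp)
      simpa using this
    · have hin : InC ω (fun _ => (0 : ℝ)) := ⟨0, by simp⟩
      exact add_nonneg (sup_nonneg hω.out hin) (semi_nonneg hω.out hin)
  dist_comm f g := by
    have h1 : ∀ x, |f.toFun x - g.toFun x| = |g.toFun x - f.toFun x| := fun x => abs_sub_comm _ _
    have h2 : ∀ x y, |(f.toFun x - g.toFun x) - (f.toFun y - g.toFun y)| =
        |(g.toFun x - f.toFun x) - (g.toFun y - f.toFun y)| := fun x y => by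
      rw [← abs_neg]; congr 1; ring
    simp only [normC, semi, h1, h2]
  dist_triangle f g k := by
    have h1 := f.mem.sub hω.out g.mem
    have h2 := g.mem.sub hω.out k.mem
    have h3 : normC ω (fun x => f.toFun x - k.toFun x) ≤
      ((⨆ x, |f.toFun x - g.toFun x|) + (⨆ x, |g.toFun x - k.toFun x|)) +
      (semi ω (fun x => f.toFun x - g.toFun x) + semi ω (fun x => g.toFun x - k.toFun x)) := by
      refine normC_le hω.out (fun x => ?_) (fun x y => ?_)
      · have e1 := abs_le_sup hω.out h1 x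
        have e2 := abs_le_sup hω.out h2 x
        have e3 : |f.toFun x - k.toFun x| ≤ |f.toFun x - g.toFun x| + |g.toFun x - k.toFun x| :=
          abs_sub_le _ _ _
        linarith
      · have e1 := abs_sub_le_semi hω.out h1 x y
        have e2 := abs_sub_le_semi hω.out h2 x y
        have e3 : |f.toFun x - k.toFun x - (f.toFun y - k.toFun y)| ≤
          |(f.toFun x - g.toFun x) - (f.toFun y - g.toFun y)| +
          |(g.toFun x - k.toFun x) - (g.toFun y - k.toFun y)| := by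
          have : f.toFun x - k.toFun x - (f.toFun y - k.toFun y) =
            ((f.toFun x - g.toFun x) - (f.toFun y - g.toFun y)) +
            ((g.toFun x - k.toFun x) - (g.toFun y - k.toFun y)) := by ring
          rw [this]; exact abs_add_le _ _
        rw [add_mul]
        linarith
    unfold normC at h3 ⊢
    linarith
  eq_of_dist_eq_zero {f g} h := by
    have h1 := f.mem.sub hω.out g.mem
    have h2 : ∀ x, f.toFun x = g.toFun x := by
      intro x
      have h3 := abs_le_norm hω.out h1 x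
      rw [h] at h3
      have := abs_nonpos_iff.1 h3
      linarith
    cases f; cases g
    congr
    exact funext h2

lemma dist_def (f g : CSpace ω) : dist f g = normC ω fun x => f.toFun x - g.toFun x := rfl

lemma abs_le_dist (f g : CSpace ω) (x : I01) : |f.toFun x - g.toFun x| ≤ dist f g :=
  abs_le_norm hω.out (f.mem.sub hω.out g.mem) x

lemma abs_sub_le_dist (f g : CSpace ω) (x y : I01) :
    |(f.toFun x - g.toFun x) - (f.toFun y - g.toFun y)| ≤ dist f g * ω |(x : ℝ) - y| :=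
  abs_sub_le_norm hω.out (f.mem.sub hω.out g.mem) x y

/-- `C^ω[0, 1]` is complete. -/
instance : CompleteSpace (CSpace ω) := by
  refine Metric.complete_of_cauchySeq_tendsto fun u hu => ?_
  have hpt : ∀ x, ∃ y, Tendsto (fun n => (u n).toFun x) atTop (𝓝 y) := by
    intro x
    apply cauchySeq_tendsto_of_complete
    rw [Metric.cauchySeq_iff] at hu ⊢
    intro ε hε
    obtain ⟨N, hN⟩ := hu ε hε
    refine ⟨N, fun m hm n hn => lt_of_le_of_lt ?_ (hN m hm n hn)⟩
    rw [Real.dist_eq]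
    exact abs_le_dist _ _ x
  choose F hF using hpt
  have hlim : ∀ (n : ℕ) (ε : ℝ), (∀ m, n ≤ m → dist (u n) (u m) ≤ ε) →
      (∀ x, |(u n).toFun x - F x| ≤ ε) ∧
      ∀ x y : I01, |((u n).toFun x - F x) - ((u n).toFun y - F y)| ≤ ε * ω |(x : ℝ) - y| := by
    intro n ε hε
    constructor
    · intro x
      refine le_of_tendsto ((tendsto_const_nhds.sub (hF x)).abs) ?_
      filter_upwards [eventually_ge_atTop n] with m hm
      exact (abs_le_dist _ _ x).trans (hε m hm)
    · intro x y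
      refine le_of_tendsto (((tendsto_const_nhds.sub (hF x)).sub
        (tendsto_const_nhds.sub (hF y))).abs) ?_
      filter_upwards [eventually_ge_atTop n] with m hm
      exact (abs_sub_le_dist _ _ x y).trans
        (mul_le_mul_of_nonneg_right (hε m hm) (omega_nonneg hω.out x y))
  have hcau := Metric.cauchySeq_iff.1 hu
  have hFin : InC ω F := by
    obtain ⟨N, hN⟩ := hcau 1 one_pos
    obtain ⟨-, h2⟩ := hlim N 1 fun m hm => (hN N le_rfl m hm).le
    have h3 : InC ω (fun x => (u N).toFun x - F x) := ⟨1, h2⟩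
    have h4 := (u N).mem.sub hω.out h3
    refine Eq.mp ?_ h4
    congr 1
    funext x; ring
  refine ⟨⟨F, hFin⟩, ?_⟩
  rw [Metric.tendsto_atTop]
  intro ε hε
  obtain ⟨N, hN⟩ := hcau (ε / 3) (by positivity)
  refine ⟨N, fun n hn => ?_⟩
  obtain ⟨h1, h2⟩ := hlim n (ε / 3) fun m hm => (hN n hn m (le_trans hn hm)).le
  have := normC_le hω.out h1 h2
  rw [dist_def]
  simp only
  linarith

end Pool.Agent.R221.Om
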